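import Mathlib
import Pool.Agent.Y201.C3.Stm

/-! # ETA: another point where a symmetric `3 × 3` matrix of polynomials has rank at most one -/

set_option autoImplicit false

namespace Pool.Agent.X1.NC

open MvPolynomial

noncomputable section

variable {σ : Type} [Finite σ]

/-- the translation by `p` -/
def tr (p : σ → ℂ) : MvPolynomial σ ℂ ≃ₐ[ℂ] MvPolynomial σ ℂ :=
  AlgEquiv.ofAlgHom (aeval fun i => X i + C (p i)) (aeval fun i => X i - C (p i))
    (by ext i; simp [algebraMap_eq])
    (by ext i; simp [algebraMap_eq])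

theorem aeval_tr (p x : σ → ℂ) (f : MvPolynomial σ ℂ) :
    aeval x (tr p f) = aeval (fun i => x i + p i) f := by
  have h : (aeval x).comp (tr p : MvPolynomial σ ℂ →ₐ[ℂ] MvPolynomial σ ℂ) =
      aeval (fun i => x i + p i) := by
    ext i
    simp [tr]
  exact DFunLike.congr_fun h f

theorem height_zero_ge :
    (Nat.card σ : WithBot ℕ∞) ≤ ((vanishingIdeal ℂ {(0 : σ → ℂ)}).height : ℕ∞) := by
  have h1 : ringKrullDim (MvPolynomial σ ℂ) = Nat.card σ := by
    rw [MvPolynomial.ringKrullDim_of_isNoetherianRing, ringKrullDim_eq_zero_of_field]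
    simp
  rw [← h1, ringKrullDim_le_iff_isMaximal_height_le]
  intro M hM
  obtain ⟨p, rfl⟩ := isMaximal_iff_eq_vanishingIdeal_singleton.1 hM
  have h2 : vanishingIdeal ℂ {p} =
      (vanishingIdeal ℂ {(0 : σ → ℂ)}).comap (tr p).toRingEquiv := by
    ext f
    rw [Ideal.mem_comap, mem_vanishingIdeal_singleton_iff, mem_vanishingIdeal_singleton_iff]
    have := aeval_tr p 0 f
    simp only [Pi.zero_apply, zero_add] at this
    change _ ↔ aeval 0 (tr p f) = 0
    rw [this]
  rw [h2, RingEquiv.height_comap]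

/-- fewer equations than unknowns: a common zero at the origin is not isolated -/
theorem exists_other_zero (S : Finset (MvPolynomial σ ℂ)) (hS : S.card < Nat.card σ)
    (h0 : ∀ f ∈ S, aeval (0 : σ → ℂ) f = 0) :
    ∃ z : σ → ℂ, z ≠ 0 ∧ ∀ f ∈ S, aeval z f = 0 := by
  set m0 : Ideal (MvPolynomial σ ℂ) := vanishingIdeal ℂ {(0 : σ → ℂ)} with hm0
  have hmax : m0.IsMaximal := isMaximal_iff_eq_vanishingIdeal_singleton.2 ⟨0, rfl⟩
  have hle : Ideal.span (S : Set (MvPolynomial σ ℂ)) ≤ m0 := by
    rw [Ideal.span_le]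
    intro f hf
    exact (mem_vanishingIdeal_singleton_iff _ _).2 (h0 f hf)
  obtain ⟨P, hP, hPm⟩ := Ideal.exists_minimalPrimes_le hle
  have hPp : P.IsPrime := hP.1.1
  have hh : P.height ≤ S.card := Ideal.height_le_card_of_mem_minimalPrimes_span_finset hP
  by_contra hcon
  push Not at hcon
  have hz : zeroLocus ℂ P ⊆ {0} := by
    intro z hz
    by_contra hz0
    obtain ⟨f, hf, hf0⟩ := hcon z hz0
    exact hf0 (hz f (hP.1.2 (Ideal.subset_span hf)))
  have h3 : m0 ≤ P := by
    calc m0 ≤ vanishingIdeal ℂ (zeroLocus ℂ P) := vanishingIdeal_anti_mono hz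
      _ = P := IsPrime.vanishingIdeal_zeroLocus P
  have h4 : P = m0 := le_antisymm hPm h3
  have h5 := height_zero_ge (σ := σ)
  rw [← hm0, ← h4] at h5
  have h6 : (Nat.card σ : ℕ∞) ≤ P.height := by exact_mod_cast h5
  have h7 : (Nat.card σ : ℕ∞) ≤ (S.card : ℕ∞) := h6.trans hh
  have h8 : Nat.card σ ≤ S.card := by exact_mod_cast h7
  omega

theorem t : Pool.Agent.Y201.C3.S_ETA := by
  intro A hA h0
  set f : Fin 3 → Fin 3 → MvPolynomial (Fin 4 ⊕ Fin 3) ℂ := fun i j =>
    rename Sum.inl (A i j) - X (Sum.inr i) * X (Sum.inr j) with hf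
  have hsymm : ∀ i j, f i j = f j i := by
    intro i j
    simp only [hf]
    rw [hA.apply j i, mul_comm]
  set S : Finset (MvPolynomial (Fin 4 ⊕ Fin 3) ℂ) :=
    {f 0 0, f 0 1, f 0 2, f 1 1, f 1 2, f 2 2} with hS
  have hcard : S.card < Nat.card (Fin 4 ⊕ Fin 3) := by
    have : S.card ≤ 6 := by
      rw [hS]
      exact Finset.card_le_six
    simp
    omega
  obtain ⟨z, hz0, hz⟩ := exists_other_zero S hcard (by
    have hall : ∀ i j, aeval (0 : Fin 4 ⊕ Fin 3 → ℂ) (f i j) = 0 := by
      intro i j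
      simp only [hf, map_sub, map_mul, aeval_X, Pi.zero_apply, mul_zero, sub_zero, aeval_rename]
      have := h0 i j
      rw [← coe_aeval_eq_eval] at this
      exact this
    intro g hg
    simp only [hS, Finset.mem_insert, Finset.mem_singleton] at hg
    rcases hg with rfl | rfl | rfl | rfl | rfl | rfl <;> exact hall _ _)
  have hall : ∀ i j, aeval z (f i j) = 0 := by
    have e00 := hz (f 0 0) (by simp [hS])
    have e01 := hz (f 0 1) (by simp [hS])
    have e02 := hz (f 0 2) (by simp [hS])
    have e11 := hz (f 1 1) (by simp [hS])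
    have e12 := hz (f 1 2) (by simp [hS])
    have e22 := hz (f 2 2) (by simp [hS])
    intro i j
    fin_cases i <;> fin_cases j
    · exact e00
    · exact e01
    · exact e02
    · rw [hsymm]; exact e01
    · exact e11
    · exact e12
    · rw [hsymm]; exact e02
    · rw [hsymm]; exact e12
    · exact e22
  have hA' : ∀ i j, eval (fun l => z (Sum.inl l)) (A i j) = z (Sum.inr i) * z (Sum.inr j) := by
    intro i j
    have := hall i j
    simp only [hf, map_sub, map_mul, aeval_X, aeval_rename] at this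
    rw [← coe_aeval_eq_eval]
    exact sub_eq_zero.1 this
  refine ⟨fun l => z (Sum.inl l), ?_, ?_⟩
  · intro hη
    apply hz0
    have hv : ∀ i, z (Sum.inr i) = 0 := by
      intro i
      have := hA' i i
      rw [hη, h0 i i] at this
      exact mul_self_eq_zero.1 this.symm
    funext s
    rcases s with l | i
    · exact congrFun hη l
    · exact hv i
  · intro i j k l
    rw [hA', hA', hA', hA']
    ring

end

end Pool.Agent.X1.NC
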